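import Pool.Agent.Q215.MB.Stm
import Pool.Agent.Q214.WR.StepP

/-!
# Project MB (helper215), job STEPR (helper220)
-/

set_option autoImplicit false

open Set Topology Filter

namespace Pool.Agent.Q220.MB

open Pool.Agent.Q215.WR (Two Lim)
open Pool.Agent.Q215.MB
open Q214.WR (Good exists_pow)

lemma pc_core {l : ℝ → ℕ} {j i : ℕ} {P : Set ℝ} (h : Pc l j i P) : Core l i P := by
  cases j with
  | zero => exact h
  | succ j => exact h.1

/-- every point outside `H` is in a good cell -/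
lemma cover {H : Set ℝ} (hH : IsClosed H) {y : ℝ} (hy : y ∉ H) :
    ∃ p : ℕ × ℤ, Good H p ∧ (p.2 : ℝ) ≤ y * 2 ^ p.1 ∧ y * 2 ^ p.1 ≤ p.2 + 1 := by
  classical
  have hex : ∃ n : ℕ, ∀ h ∈ H, h * 2 ^ n < (⌊y * 2 ^ n⌋ : ℝ) - 1 ∨
      (⌊y * 2 ^ n⌋ : ℝ) + 2 < h * 2 ^ n := by
    obtain ⟨δ, hδ, hb⟩ := Metric.isOpen_iff.1 hH.isOpen_compl y hy
    obtain ⟨n0, hn0⟩ := exists_pow hδ 2
    refine ⟨n0, fun h hh => ?_⟩
    have h2 : (0 : ℝ) < 2 ^ n0 := by positivity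
    have h3 := hn0 n0 le_rfl
    have f1 := Int.floor_le (y * 2 ^ n0)
    have f2 := Int.lt_floor_add_one (y * 2 ^ n0)
    have h4 : δ ≤ |h - y| := by
      by_contra hcon
      exact hb (show h ∈ Metric.ball y δ by
        rw [Metric.mem_ball, Real.dist_eq]; exact not_le.1 hcon) hh
    have h5 : δ * 2 ^ n0 ≤ |h - y| * 2 ^ n0 := mul_le_mul_of_nonneg_right h4 h2.le
    rcases le_total y h with h6 | h6
    · right
      rw [abs_of_nonneg (by linarith : (0 : ℝ) ≤ h - y)] at h5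
      have : (h - y) * 2 ^ n0 = h * 2 ^ n0 - y * 2 ^ n0 := by ring
      linarith
    · left
      rw [abs_of_nonpos (by linarith : h - y ≤ (0 : ℝ))] at h5
      have : -(h - y) * 2 ^ n0 = y * 2 ^ n0 - h * 2 ^ n0 := by ring
      linarith
  have hfind := Nat.find_spec hex
  have hmin := fun m => Nat.find_min (m := m) hex
  set n := Nat.find hex with hn
  have f1 := Int.floor_le (y * 2 ^ n)
  have f2 := Int.lt_floor_add_one (y * 2 ^ n)
  refine ⟨(n, ⌊y * 2 ^ n⌋), ⟨hfind, ?_⟩, f1, f2.le⟩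
  rcases Nat.eq_zero_or_pos n with h0 | h0
  · exact Or.inl h0
  · right
    obtain ⟨m, hm⟩ : ∃ m, n = m + 1 := ⟨n - 1, by omega⟩
    have h1 := hmin m (by omega)
    push Not at h1
    obtain ⟨h, hh, h2, h3⟩ := h1
    refine ⟨h, hh, ?_⟩
    have g1 := Int.floor_le (y * 2 ^ m)
    have g2 := Int.lt_floor_add_one (y * 2 ^ m)
    have e1 : y * 2 ^ n = 2 * (y * 2 ^ m) := by rw [hm, pow_succ]; ring
    have e2 : h * 2 ^ n = 2 * (h * 2 ^ m) := by rw [hm, pow_succ]; ring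
    show (⌊y * 2 ^ n⌋ : ℝ) - 5 ≤ h * 2 ^ n ∧ h * 2 ^ n ≤ (⌊y * 2 ^ n⌋ : ℝ) + 6
    constructor <;> linarith

/-- only finitely many good enlarged cells near a point outside `H` -/
lemma loc_fin' {H : Set ℝ} {x δ : ℝ} (hδ : 0 < δ) (hx : ∀ h ∈ H, δ ≤ |h - x|) :
    {i : ℕ × ℤ | Good H i ∧ ∃ z : ℝ, |z - x| < δ / 2 ∧ (i.2 : ℝ) - 1 ≤ z * 2 ^ i.1 ∧
      z * 2 ^ i.1 ≤ i.2 + 2}.Finite := by
  obtain ⟨n0, hn0⟩ := exists_pow hδ 14
  set B : ℤ := ⌈2 ^ n0 * (|x| + δ) + 2⌉ with hB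
  refine Set.Finite.subset ((Finset.range (n0 + 1) ×ˢ Finset.Icc (-B) B).finite_toSet) ?_
  rintro ⟨n, k⟩ ⟨⟨-, hg⟩, z, hz, hz1, hz2⟩
  have hz1' : (k : ℝ) - 1 ≤ z * 2 ^ n := hz1
  have hz2' : z * 2 ^ n ≤ k + 2 := hz2
  have h2 : (0 : ℝ) < 2 ^ n := by positivity
  have hnn : n ≤ n0 := by
    by_contra hcon
    have hn := hn0 n (by omega)
    rcases hg with hg | ⟨h, hh, hg1, hg2⟩
    · exact hcon (by simpa using (show n ≤ n0 by simp only at hg; omega))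
    · have hg1' : (k : ℝ) - 5 ≤ h * 2 ^ n := hg1
      have hg2' : h * 2 ^ n ≤ k + 6 := hg2
      have h3 : |h - z| * 2 ^ n ≤ 7 := by
        have e : |h - z| * 2 ^ n = |h * 2 ^ n - z * 2 ^ n| := by
          rw [← sub_mul, abs_mul, abs_of_pos h2]
        rw [e, abs_le]
        constructor <;> linarith
      have h4 := hx h hh
      have h5 : |h - x| ≤ |h - z| + |z - x| := abs_sub_le _ _ _
      have h6 : δ / 2 < |h - z| := by linarith
      nlinarith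
  have h3 : (2 : ℝ) ^ n ≤ 2 ^ n0 := pow_le_pow_right₀ (by norm_num) hnn
  have hzx : |z| ≤ |x| + δ := by
    have : |z| ≤ |z - x| + |x| := by
      have := abs_add_le (z - x) x
      rwa [sub_add_cancel] at this
    linarith
  have hzb : |z * 2 ^ n| ≤ 2 ^ n0 * (|x| + δ) := by
    rw [abs_mul, abs_of_pos h2, mul_comm]
    exact mul_le_mul h3 hzx (abs_nonneg _) (by positivity)
  have hB' := Int.le_ceil (2 ^ n0 * (|x| + δ) + 2)
  rw [← hB] at hB'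
  obtain ⟨b1, b2⟩ := abs_le.1 hzb
  simp only [Finset.coe_product, Finset.coe_range, Finset.coe_Icc, mem_prod, mem_Iio, mem_Icc]
  refine ⟨by omega, ?_, ?_⟩
  · have : (-B : ℝ) ≤ k := by linarith
    exact_mod_cast this
  · have : (k : ℝ) ≤ B := by linarith
    exact_mod_cast this

/-- the enlarged cell -/
def J (p : ℕ × ℤ) : Set ℝ := Ioo (((p.2 : ℝ) - 1 / 4) / 2 ^ p.1) (((p.2 : ℝ) + 5 / 4) / 2 ^ p.1)

lemma mem_J {p : ℕ × ℤ} {z : ℝ} :
    z ∈ J p ↔ (p.2 : ℝ) - 1 / 4 < z * 2 ^ p.1 ∧ z * 2 ^ p.1 < p.2 + 5 / 4 := by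
  have h2 : (0 : ℝ) < 2 ^ p.1 := by positivity
  rw [J, mem_Ioo, div_lt_iff₀ h2, lt_div_iff₀ h2]

theorem t_stepr : S_stepr := by
  classical
  intro l i j N' U V hA H hHc hVH hHS
  have hJH : ∀ p : ℕ × ℤ, Good H p → ∀ z ∈ J p, z ∉ H := by
    intro p hp z hz hzH
    obtain ⟨h3, h4⟩ := mem_J.1 hz
    rcases hp.1 z hzH with h5 | h5 <;> linarith
  have hex : ∀ p : {p : ℕ × ℤ // Good H p ∧ ((U \ V) ∩ J p).Nonempty}, ∃ Q : Set ℝ,
      Q ⊆ (U \ V) ∩ J p.1 ∧ Pc l j (i + 1) Q ∧ ∀ x ∈ Q, x ∉ N' := fun p => hA.piece _ _ p.2.2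
  choose Q hQs hQp hQN using hex
  have hcore := fun p => pc_core (hQp p)
  choose hQc hQne hQl M hMc hMQ hMl hMd using hcore
  set F : Set ℝ := H ∪ ⋃ p, Q p with hF
  set MM : Set ℝ := ⋃ p, M p with hMM
  have hQF : ∀ p, Q p ⊆ F \ H := fun p x hx =>
    ⟨Or.inr (mem_iUnion.2 ⟨p, hx⟩), hJH p.1 p.2.1 x (hQs p hx).2⟩
  have hMMF : MM ⊆ F \ H := iUnion_subset fun p => (hMQ p).trans (hQF p)
  have hFH : ∀ x ∈ F \ H, ∃ p, x ∈ Q p := by
    rintro x ⟨hxF, hxH⟩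
    rcases hxF with hxF | hxF
    · exact absurd hxF hxH
    · exact mem_iUnion.1 hxF
  have hMne : ∀ p, (M p).Nonempty := by
    intro p
    obtain ⟨x, hx⟩ := hQne p
    have := hMd p hx
    exact closure_nonempty_iff.1 ⟨x, this⟩
  -- points of `MM` near a point of `U \ V` outside `H`
  have hnear : ∀ y ∈ U \ V, y ∉ H → ∃ p : ℕ × ℤ, Good H p ∧ (p.2 : ℝ) ≤ y * 2 ^ p.1 ∧
      y * 2 ^ p.1 ≤ p.2 + 1 ∧ ∃ z ∈ MM, (p.2 : ℝ) - 1 / 4 < z * 2 ^ p.1 ∧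
      z * 2 ^ p.1 < p.2 + 5 / 4 := by
    intro y hyW hyH
    obtain ⟨p, hp, h1, h2⟩ := cover hHc hyH
    have hyJ : y ∈ J p := mem_J.2 ⟨by linarith, by linarith⟩
    obtain ⟨z, hz⟩ := hMne ⟨p, hp, y, hyW, hyJ⟩
    exact ⟨p, hp, h1, h2, z, mem_iUnion.2 ⟨_, hz⟩, mem_J.1 (hQs _ (hMQ _ hz)).2⟩
  have hlowH : ∀ y ∈ U \ V, l y ≤ i → y ∉ H := by
    intro y hy hyl hyH
    rcases hHS hyH with h | h
    · exact hy.2 h
    · have : i + 1 ≤ l y := h.1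
      omega
  have hTwoW : ∀ x ∈ H, Two (U \ V) x := by
    intro x hx
    by_cases hxV : x ∈ V
    · exact hA.twoV x hxV
    · rcases hHS hx with h | h
      · exact absurd h hxV
      · exact hA.twoU x ⟨h.2, hxV⟩ h.1
  have hTwoH : ∀ x ∈ H, Two MM x := by
    intro x hx ε hε
    obtain ⟨⟨a, haW, ha1, ha2⟩, b, hbW, hb1, hb2⟩ := hTwoW x hx ε hε
    constructor
    · obtain ⟨y1, ⟨hy1W, hy1a, hy1x⟩, hy1l⟩ := hA.low (x - ε) x ⟨a, haW, ha1, ha2⟩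
      have hy1H : y1 ∉ H := hlowH y1 hy1W hy1l
      have hcomp : IsCompact (H ∩ Icc y1 x) := isCompact_Icc.inter_left hHc
      obtain ⟨u, ⟨huH, huy, hux⟩, hmin⟩ := hcomp.exists_isLeast ⟨x, hx, hy1x.le, le_rfl⟩
      have hyu : y1 < u := lt_of_le_of_ne huy fun h => hy1H (h ▸ huH)
      obtain ⟨⟨y, hyW, hy1, hy2⟩, -⟩ := hTwoW u huH ((u - y1) / 4) (by linarith)
      have hyH : y ∉ H := by
        intro hyH
        have := hmin ⟨hyH, by linarith, by linarith⟩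
        linarith
      obtain ⟨p, hp, p1, p2, z, hzM, z1, z2⟩ := hnear y hyW hyH
      have h2 : (0 : ℝ) < 2 ^ p.1 := by positivity
      have hu2 : (p.2 : ℝ) + 2 < u * 2 ^ p.1 := by
        rcases hp.1 u huH with h | h
        · exfalso
          have := mul_lt_mul_of_pos_right hy2 h2
          linarith
        · exact h
      refine ⟨z, hzM, ?_, ?_⟩
      · have : (y - 5 / 4 * (u - y)) * 2 ^ p.1 < z * 2 ^ p.1 := by
          have e : (y - 5 / 4 * (u - y)) * 2 ^ p.1 =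
            y * 2 ^ p.1 - 5 / 4 * (u * 2 ^ p.1 - y * 2 ^ p.1) := by ring
          rw [e]
          linarith
        have := lt_of_mul_lt_mul_right this h2.le
        linarith
      · have : z < u := lt_of_mul_lt_mul_right (by linarith : z * 2 ^ p.1 < u * 2 ^ p.1) h2.le
        linarith
    · obtain ⟨y1, ⟨hy1W, hy1a, hy1x⟩, hy1l⟩ := hA.low x (x + ε) ⟨b, hbW, hb1, hb2⟩
      have hy1H : y1 ∉ H := hlowH y1 hy1W hy1l
      have hcomp : IsCompact (H ∩ Icc x y1) := isCompact_Icc.inter_left hHc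
      obtain ⟨u, ⟨huH, hux, huy⟩, hmax⟩ := hcomp.exists_isGreatest ⟨x, hx, le_rfl, hy1a.le⟩
      have hyu : u < y1 := lt_of_le_of_ne huy fun h => hy1H (h ▸ huH)
      obtain ⟨-, y, hyW, hy1, hy2⟩ := hTwoW u huH ((y1 - u) / 4) (by linarith)
      have hyH : y ∉ H := by
        intro hyH
        have := hmax ⟨hyH, by linarith, by linarith⟩
        linarith
      obtain ⟨p, hp, p1, p2, z, hzM, z1, z2⟩ := hnear y hyW hyH
      have h2 : (0 : ℝ) < 2 ^ p.1 := by positivity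
      have hu2 : u * 2 ^ p.1 < (p.2 : ℝ) - 1 := by
        rcases hp.1 u huH with h | h
        · exact h
        · exfalso
          have := mul_lt_mul_of_pos_right hy1 h2
          linarith
      refine ⟨z, hzM, ?_, ?_⟩
      · have : u < z := lt_of_mul_lt_mul_right (by linarith : u * 2 ^ p.1 < z * 2 ^ p.1) h2.le
        linarith
      · have : z * 2 ^ p.1 < (y + 5 / 4 * (y - u)) * 2 ^ p.1 := by
          have e : (y + 5 / 4 * (y - u)) * 2 ^ p.1 =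
            y * 2 ^ p.1 + 5 / 4 * (y * 2 ^ p.1 - u * 2 ^ p.1) := by ring
          rw [e]
          linarith
        have := lt_of_mul_lt_mul_right this h2.le
        linarith
  have hclF : IsClosed F := by
    refine isClosed_of_closure_subset ?_
    intro x hx
    by_cases hxH : x ∈ H
    · exact Or.inl hxH
    right
    rw [hF, closure_union, hHc.closure_eq] at hx
    have hx' : x ∈ closure (⋃ p, Q p) := hx.resolve_left hxH
    obtain ⟨δ, hδ, hδH⟩ : ∃ δ : ℝ, 0 < δ ∧ ∀ h ∈ H, δ ≤ |h - x| := by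
      obtain ⟨δ, hδ, hb⟩ := Metric.isOpen_iff.1 hHc.isOpen_compl x hxH
      refine ⟨δ, hδ, fun h hh => ?_⟩
      by_contra hcon
      exact hb (show h ∈ Metric.ball x δ by
        rw [Metric.mem_ball, Real.dist_eq]; exact not_le.1 hcon) hh
    have hfin := loc_fin' hδ hδH
    set I : Set {p : ℕ × ℤ // Good H p ∧ ((U \ V) ∩ J p).Nonempty} :=
      Subtype.val ⁻¹' {i : ℕ × ℤ | Good H i ∧ ∃ z : ℝ, |z - x| < δ / 2 ∧
        (i.2 : ℝ) - 1 ≤ z * 2 ^ i.1 ∧ z * 2 ^ i.1 ≤ i.2 + 2} with hI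
    have hIfin : I.Finite := hfin.preimage Subtype.val_injective.injOn
    have hcl : IsClosed (⋃ p ∈ I, Q p) := hIfin.isClosed_biUnion fun p _ => (hQc p).isClosed
    have hsub : x ∈ ⋃ p ∈ I, Q p := by
      rw [← hcl.closure_eq]
      rw [Metric.mem_closure_iff] at hx' ⊢
      intro ε hε
      obtain ⟨z, hz, hzε⟩ := hx' (min ε (δ / 2)) (lt_min hε (by linarith))
      obtain ⟨p, hzp⟩ := mem_iUnion.1 hz
      obtain ⟨c1, c2⟩ := mem_J.1 (hQs p hzp).2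
      refine ⟨z, mem_iUnion₂.2 ⟨p, ⟨p.2.1, z, ?_, ?_, ?_⟩, hzp⟩, hzε.trans_le (min_le_left _ _)⟩
      · rw [abs_sub_comm, ← Real.dist_eq]
        exact hzε.trans_le (min_le_right _ _)
      · linarith
      · linarith
    obtain ⟨p, -, hxp⟩ := mem_iUnion₂.1 hsub
    exact mem_iUnion.2 ⟨p, hxp⟩
  have hTwoM : ∀ x ∈ MM, Two MM x := by
    intro x hx
    obtain ⟨p, hp⟩ := mem_iUnion.1 hx
    exact Q214.WR.Two.mono (subset_iUnion M p) (hMl p x hp).2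
  have hlM : ∀ x ∈ MM, l x = i + 1 := by
    intro x hx
    obtain ⟨p, hp⟩ := mem_iUnion.1 hx
    exact (hMl p x hp).1
  have hclM : F \ H ⊆ closure MM := by
    intro x hx
    obtain ⟨p, hp⟩ := hFH x hx
    exact closure_mono (subset_iUnion M p) (hMd p hp)
  have hunb : ∀ r : ℝ, (∃ x ∈ MM, r < x) ∧ ∃ x ∈ MM, x < r := by
    intro r
    constructor
    · obtain ⟨⟨x0, hx0, h1⟩, -⟩ := hA.unb (r + 3)
      obtain ⟨y, ⟨hyW, hy1, hy2⟩, hyl⟩ := hA.low (r + 3) (x0 + 1) ⟨x0, hx0, h1, by linarith⟩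
      obtain ⟨p, hp, p1, p2, z, hzM, z1, z2⟩ := hnear y hyW (hlowH y hyW hyl)
      refine ⟨z, hzM, ?_⟩
      have h2 : (0 : ℝ) < 2 ^ p.1 := by positivity
      have h3 : (1 : ℝ) ≤ 2 ^ p.1 := one_le_pow₀ (by norm_num)
      have h4 : (y - 5 / 4) * 2 ^ p.1 < z * 2 ^ p.1 := by
        have e : (y - 5 / 4) * 2 ^ p.1 = y * 2 ^ p.1 - 5 / 4 * 2 ^ p.1 := by ring
        rw [e]
        linarith
      have := lt_of_mul_lt_mul_right h4 h2.le
      linarith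
    · obtain ⟨-, x0, hx0, h1⟩ := hA.unb (r - 3)
      obtain ⟨y, ⟨hyW, hy1, hy2⟩, hyl⟩ := hA.low (x0 - 1) (r - 3) ⟨x0, hx0, by linarith, h1⟩
      obtain ⟨p, hp, p1, p2, z, hzM, z1, z2⟩ := hnear y hyW (hlowH y hyW hyl)
      refine ⟨z, hzM, ?_⟩
      have h2 : (0 : ℝ) < 2 ^ p.1 := by positivity
      have h3 : (1 : ℝ) ≤ 2 ^ p.1 := one_le_pow₀ (by norm_num)
      have h4 : z * 2 ^ p.1 < (y + 5 / 4) * 2 ^ p.1 := by
        have e : (y + 5 / 4) * 2 ^ p.1 = y * 2 ^ p.1 + 5 / 4 * 2 ^ p.1 := by ring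
        rw [e]
        linarith
      have := lt_of_mul_lt_mul_right h4 h2.le
      linarith
  have hNF : ∀ x ∈ F \ H, x ∉ N' := by
    intro x hx
    obtain ⟨p, hp⟩ := hFH x hx
    exact hQN p x hp
  refine ⟨F, MM, hclF, subset_union_left, ?_, countable_iUnion hMc, hMMF, hlM, hTwoM, hTwoH, hclM,
    hNF, hunb, ?_⟩
  · refine union_subset hHS (iUnion_subset fun p x hx => Or.inr ⟨hQl p x hx, (hQs p hx).1.1⟩)
  · rintro j' rfl
    have hsubp : ∀ x ∈ F \ H, ∀ u v : ℝ, x ∈ Ioo u v → ∃ Q' : Set ℝ, Q' ⊆ (F \ H) ∩ Ioo u v ∧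
        Pc l j' (i + 1 + 1) Q' ∧ ∀ x ∈ Q', x ∉ N' := by
      intro x hx u v hxuv
      obtain ⟨p, hp⟩ := hFH x hx
      obtain ⟨Q', hQ', hQ'2⟩ := (hQp p).2.2 u v ⟨x, hp, hxuv⟩
      exact ⟨Q', fun z hz => ⟨hQF p (hQ' hz).1, (hQ' hz).2⟩, hQ'2, fun z hz => hQN p z (hQ' hz).1⟩
    have hTwoF : ∀ x ∈ F \ H, i + 2 ≤ l x → Two (F \ H) x := by
      intro x hx hxl
      obtain ⟨p, hp⟩ := hFH x hx
      exact Q214.WR.Two.mono (hQF p) ((hQp p).2.1 x hp hxl)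
    refine ⟨hTwoF, fun V' hV'c hV'H => ?_⟩
    have hsubF : F \ H ⊆ F \ V' := fun x hx => ⟨hx.1, fun h => hx.2 (hV'H h)⟩
    have hpt : ∀ u v : ℝ, ((F \ V') ∩ Ioo u v).Nonempty → ∃ x ∈ F \ H, x ∈ Ioo u v := by
      rintro u v ⟨x, hxF, hxu, hxv⟩
      by_cases hxH : x ∈ H
      · obtain ⟨-, z, hz, hz1, hz2⟩ := hTwoH x hxH (v - x) (by linarith)
        exact ⟨z, hMMF hz, by linarith, by linarith⟩
      · exact ⟨x, ⟨hxF.1, hxH⟩, hxu, hxv⟩
    refine ⟨hclF, hV'c, fun x hx => Or.inl (hV'H hx), ?_, ?_, ?_, ?_, ?_⟩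
    · intro x hx
      exact Q214.WR.Two.mono (hMMF.trans hsubF) (hTwoH x (hV'H hx))
    · intro x hx hxl
      by_cases hxH : x ∈ H
      · exact Q214.WR.Two.mono (hMMF.trans hsubF) (hTwoH x hxH)
      · exact Q214.WR.Two.mono hsubF (hTwoF x ⟨hx.1, hxH⟩ hxl)
    · intro u v huv
      obtain ⟨x, hx, hxuv⟩ := hpt u v huv
      obtain ⟨Q', hQ', h1, h2⟩ := hsubp x hx u v hxuv
      exact ⟨Q', fun z hz => ⟨hsubF (hQ' hz).1, (hQ' hz).2⟩, h1, h2⟩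
    · intro u v huv
      obtain ⟨x, hx, hxuv⟩ := hpt u v huv
      obtain ⟨z, hzuv, hzM⟩ := mem_closure_iff.1 (hclM hx) (Ioo u v) isOpen_Ioo hxuv
      exact ⟨z, ⟨hsubF (hMMF hzM), hzuv⟩, (hlM z hzM).le⟩
    · intro r
      obtain ⟨⟨x, hx, h1⟩, y, hy, h2⟩ := hunb r
      exact ⟨⟨x, hsubF (hMMF hx), h1⟩, y, hsubF (hMMF hy), h2⟩

end Pool.Agent.Q220.MB
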